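import Pool.Agent.U247.CV.Nott3

/-!
# Quotients of the Nottingham group: the derived length
-/

set_option autoImplicit false

namespace Pool.Agent.U247.CV

open Polynomial
open scoped commutatorElement

section nott

variable {p M : ℕ} [hp : Fact p.Prime]

theorem hom_congr (φ ψ : TR p M →ₐ[ZMod p] TR p M) {k : ℕ}
    (h : φ (xx p M) - ψ (xx p M) ∈ JJ p M k) (z : TR p M) : φ z - ψ z ∈ JJ p M k := by
  obtain ⟨P, rfl⟩ := exists_aeval z
  have h1 : φ (aeval (xx p M) P) = aeval (φ (xx p M)) P := (aeval_algHom_apply φ _ P).symm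
  have h2 : ψ (aeval (xx p M) P) = aeval (ψ (xx p M)) P := (aeval_algHom_apply ψ _ P).symm
  have h3 : φ (xx p M) - ψ (xx p M) ∣ aeval (φ (xx p M)) P - aeval (ψ (xx p M)) P := by
    rw [aeval_def, aeval_def, eval₂_eq_eval_map, eval₂_eq_eval_map]
    exact Polynomial.sub_dvd_eval_sub _ _ _
  rw [h1, h2]
  exact Ideal.mem_of_dvd _ h3 h

theorem dd_mul (σ τ : NG p M) : dd (σ * τ) = σ.1 (dd τ) + dd σ := by
  rw [dd, dd, dd, map_sub]
  change σ.1 (τ.1 (xx p M)) - xx p M = _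
  ring

/-- the lower central filtration -/
noncomputable def SS (p M : ℕ) [Fact p.Prime] (k : ℕ) : Subgroup (NG p M) where
  carrier := {τ | dd τ ∈ JJ p M (k + 1)}
  one_mem' := by
    change dd (1 : NG p M) ∈ JJ p M (k + 1)
    rw [dd_one]
    exact Ideal.zero_mem _
  mul_mem' := by
    intro σ τ hσ hτ
    change dd (σ * τ) ∈ JJ p M (k + 1)
    rw [dd_mul]
    exact Ideal.add_mem _ (NG_mem σ.2 hτ) hσ
  inv_mem' := by
    intro σ hσ
    change dd σ⁻¹ ∈ JJ p M (k + 1)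
    have h1 := dd_mul σ⁻¹ σ
    rw [inv_mul_cancel, dd_one] at h1
    have h2 : dd σ⁻¹ = -((σ⁻¹ : NG p M).1 (dd σ)) := by linear_combination -h1
    rw [h2]
    exact (Ideal.neg_mem_iff _).2 (NG_mem (σ⁻¹ : NG p M).2 hσ)

theorem mem_SS {k : ℕ} {τ : NG p M} : τ ∈ SS p M k ↔ dd τ ∈ JJ p M (k + 1) := Iff.rfl

theorem comm_SS {i j : ℕ} (hi : 1 ≤ i) (hj : 1 ≤ j) {σ τ : NG p M} (hσ : σ ∈ SS p M i)
    (hτ : τ ∈ SS p M j) : ⁅σ, τ⁆ ∈ SS p M (i + j) := by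
  obtain ⟨i, rfl⟩ : ∃ i', i = i' + 1 := ⟨i - 1, by omega⟩
  obtain ⟨j, rfl⟩ : ∃ j', j = j' + 1 := ⟨j - 1, by omega⟩
  obtain ⟨a, ha⟩ := mem_JJ.1 (mem_SS.1 hσ)
  obtain ⟨b, hb⟩ := mem_JJ.1 (mem_SS.1 hτ)
  have hσx : σ.1 (xx p M) = xx p M + xx p M ^ (i + 2) * a := by
    rw [dd] at ha
    linear_combination ha
  have hτx : τ.1 (xx p M) = xx p M + xx p M ^ (j + 2) * b := by
    rw [dd] at hb
    linear_combination hb
  have h1 := act (σ.1 : TR p M →ₐ[ZMod p] TR p M) i a hσx (j + 2) b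
  have h2 := act (τ.1 : TR p M →ₐ[ZMod p] TR p M) j b hτx (i + 2) a
  change σ.1 (xx p M ^ (j + 2) * b) - xx p M ^ (j + 2) * b - _ ∈ _ at h1
  change τ.1 (xx p M ^ (i + 2) * a) - xx p M ^ (i + 2) * a - _ ∈ _ at h2
  have hk : (σ * τ).1 (xx p M) - (τ * σ).1 (xx p M) ∈ JJ p M (i + 1 + (j + 1) + 1) := by
    have e : (σ * τ).1 (xx p M) - (τ * σ).1 (xx p M) =
        (σ.1 (xx p M ^ (j + 2) * b) - xx p M ^ (j + 2) * b -
          ((j + 2 : ℕ) : TR p M) * (xx p M ^ (j + 2 + i + 1) * b * a)) -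
        (τ.1 (xx p M ^ (i + 2) * a) - xx p M ^ (i + 2) * a -
          ((i + 2 : ℕ) : TR p M) * (xx p M ^ (i + 2 + j + 1) * a * b)) +
        xx p M ^ (i + 1 + (j + 1) + 1) * ((((j + 2 : ℕ) : TR p M) - ((i + 2 : ℕ) : TR p M)) *
          (a * b)) := by
      change σ.1 (τ.1 (xx p M)) - τ.1 (σ.1 (xx p M)) = _
      rw [hτx, hσx, map_add, map_add, hσx, hτx]
      ring
    rw [e]
    refine Ideal.add_mem _ (Ideal.sub_mem _ (JJ_anti (by omega) h1) (JJ_anti (by omega) h2)) ?_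
    rw [mem_JJ]
    exact ⟨_, rfl⟩
  have hz := hom_congr ((σ * τ : NG p M).1 : TR p M →ₐ[ZMod p] TR p M)
    ((τ * σ : NG p M).1 : TR p M →ₐ[ZMod p] TR p M) hk ((τ * σ : NG p M).1⁻¹ (xx p M))
  rw [mem_SS]
  have e1 : ⁅σ, τ⁆ = (σ * τ) * (τ * σ)⁻¹ := by
    rw [commutatorElement_def]
    group
  have e2 : (τ * σ : NG p M).1 ((τ * σ : NG p M).1⁻¹ (xx p M)) = xx p M := by
    have := DFunLike.congr_fun (mul_inv_cancel (τ * σ : NG p M).1) (xx p M)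
    exact this
  change (σ * τ : NG p M).1 ((τ * σ : NG p M).1⁻¹ (xx p M)) -
    (τ * σ : NG p M).1 ((τ * σ : NG p M).1⁻¹ (xx p M)) ∈ _ at hz
  rw [e2] at hz
  rw [e1]
  exact hz

theorem derived_le (k : ℕ) : derivedSeries (NG p M) k ≤ SS p M (2 ^ k) := by
  induction k with
  | zero => exact fun τ _ => dd_mem τ
  | succ k ih =>
    rw [derivedSeries_succ, Subgroup.commutator_le]
    intro σ hσ τ hτ
    have h1 : 1 ≤ 2 ^ k := Nat.one_le_two_pow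
    have h2 := comm_SS h1 h1 (ih hσ) (ih hτ)
    rwa [← two_mul, ← pow_succ'] at h2

theorem derived_bot {k : ℕ} (hk : M ≤ 2 ^ k + 1) : derivedSeries (NG p M) k = ⊥ := by
  rw [eq_bot_iff]
  intro τ hτ
  rw [Subgroup.mem_bot]
  apply dd_inj
  rw [dd_one]
  exact JJ_M (JJ_anti hk (derived_le k hτ))

end nott

end Pool.Agent.U247.CV
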