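import Pool.Agent.U247.CV.Lower
import Pool.Agent.U247.CV.Nott4

/-!
# Covering subgroups of `p`-groups of large index
-/

set_option autoImplicit false

namespace Pool.Agent.U247.CV

open Subgroup

theorem derived_pi {X R : Type} [Group R] {d : ℕ} (h : derivedSeries R d = ⊥) :
    derivedSeries (X → R) d = ⊥ := by
  rw [eq_bot_iff]
  intro f hf
  rw [mem_bot]
  funext x
  have h1 : Pi.evalMonoidHom (fun _ : X => R) x f ∈ derivedSeries R d :=
    map_derivedSeries_le_derivedSeries (Pi.evalMonoidHom (fun _ : X => R) x) d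
      ⟨f, hf, rfl⟩
  rw [h, mem_bot] at h1
  exact h1

theorem derived_base {R T X : Type} [Group R] [Group T] [MulAction T X] {d : ℕ}
    (h : derivedSeries R d = ⊥) : derivedSeries (base R T X) d = ⊥ := by
  let j : (X → R) →* base R T X :=
    { toFun := fun f => ⟨SemidirectProduct.inl f, f, trivial, rfl⟩
      map_one' := Subtype.ext (map_one _)
      map_mul' := fun a b => Subtype.ext (map_mul _ _ _) }
  have hj : Function.Surjective j := by
    rintro ⟨_, f, -, rfl⟩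
    exact ⟨f, rfl⟩
  rw [← map_derivedSeries_eq hj d, derived_pi h, Subgroup.map_bot]

/-- For every prime `p` there is an example in which `H` is a `p`-group of derived length at most
`Nat.clog 2 (p + 1)`, `|A : H| = q (q - 1)`, `q` a prime at most `2 p ^ 3 + 2`, and
`|H : U| = p ^ p`. -/
theorem lower_p (p : ℕ) (hp : p.Prime) :
    ∃ q : ℕ, q.Prime ∧ p ^ 3 + 1 < q ∧ q ≤ 2 * p ^ 3 + 2 ∧
    ∃ (A : Type) (_ : Group A) (_ : Finite A) (H U : Subgroup A), H.Normal ∧ U ≤ H ∧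
      IsPGroup p H ∧ derivedSeries H (Nat.clog 2 (p + 1)) = ⊥ ∧ (∀ h ∈ H, ∃ a : A, a * h * a⁻¹ ∈ U) ∧ H.index = q * (q - 1) ∧
      U.relIndex H = p ^ p := by
  have hpf : Fact p.Prime := ⟨hp⟩
  have hcl := classes (p := p) (M := p + 2) (by omega) le_rfl
  have hcard := card_NG (p := p) (M := p + 2) (by omega)
  rw [Nat.add_sub_cancel] at hcl hcard
  obtain ⟨q, hq, h1, h2⟩ := Nat.exists_prime_lt_and_le_two_mul (1 + p * p ^ 2) (by omega)
  have hqf : Fact q.Prime := ⟨hq⟩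
  obtain ⟨R, hR⟩ : ∃ R, R = NG p (p + 2) := ⟨_, rfl⟩
  rw [← hR] at hcl hcard
  have hfinR : Finite R := inferInstance
  have e3 : p * p ^ 2 = p ^ 3 := by ring
  rw [e3] at hcl h1 h2
  refine ⟨q, hq, by omega, by omega, ?_⟩
  have hfin : Finite (Wr R (aff q) (ZMod q)) :=
    Finite.of_equiv ((ZMod q → R) × aff q) (SemidirectProduct.equivProd).symm
  have h01 : (0 : ZMod q) ≠ 1 := zero_ne_one
  refine ⟨Wr R (aff q) (ZMod q), inferInstance, hfin, base R (aff q) (ZMod q),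
    (diag R (0 : ZMod q) 1).map SemidirectProduct.inl, base_normal _ _ _, map_mono le_top, ?_, ?_,
    example_wr R (aff q) (ZMod q) h01 (fun i j hij => aff_trans q i j hij) (by
      rw [Nat.card_zmod]
      exact hcl.trans_lt h1), ?_, ?_⟩
  · have h3 : IsPGroup p (ZMod q → R) := by
      apply IsPGroup.of_card (n := p * q)
      rw [Nat.card_fun, hcard, Nat.card_zmod, ← pow_mul]
    exact (h3.to_subgroup ⊤).map _
  · apply derived_base
    rw [hR]
    apply derived_bot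
    have h4 := Nat.le_pow_clog (b := 2) (by norm_num) (p + 1)
    omega
  · rw [base_index, aff_card]
  · rw [base, relIndex_map_map_of_injective _ _ SemidirectProduct.inl_injective,
      relIndex_top_right, diag_index R h01, hcard]

/-- growth of the functions in the question -/
theorem growth (f : ℕ → ℕ)
    (hf : ∀ (A : Type) [Group A] [Finite A] (H U : Subgroup A), H.Normal → U < H → H < ⊤ →
      (∀ h ∈ H, ∃ a : A, a * h * a⁻¹ ∈ U) → (U.subgroupOf H).index ≤ f H.index)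
    (p : ℕ) (hp : p.Prime) : ∃ n, n ≤ 6 * p ^ 6 ∧ p ^ 6 ≤ n ∧ p ^ p ≤ f n := by
  obtain ⟨q, hq, hq1, hq2, A, hA, hA', H, U, hN, hUH, -, -, hcov, hidx, hrel⟩ := lower_p p hp
  have hp2 := hp.two_le
  have h8 : 8 ≤ p ^ 3 := by
    calc 8 = 2 ^ 3 := by norm_num
      _ ≤ p ^ 3 := Nat.pow_le_pow_left hp2 3
  obtain ⟨c, hc⟩ : ∃ c, c = p ^ 3 := ⟨_, rfl⟩
  have h6 : p ^ 6 = c * c := by rw [hc]; ring
  rw [← hc] at hq1 hq2 h8
  have hpp : 2 ≤ p ^ p := by
    calc 2 ≤ p := hp2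
      _ = p ^ 1 := (pow_one p).symm
      _ ≤ p ^ p := Nat.pow_le_pow_right hp.pos hp.one_le
  obtain ⟨r, hr⟩ : ∃ r, q = r + 1 := ⟨q - 1, by omega⟩
  have hidx' : H.index = (r + 1) * r := by rw [hidx, hr, Nat.add_sub_cancel]
  have hlt : U < H := by
    refine lt_of_le_of_ne hUH ?_
    rintro rfl
    rw [relIndex_self] at hrel
    omega
  have htop : H < ⊤ := by
    refine lt_of_le_of_ne le_top ?_
    rintro rfl
    rw [index_top] at hidx'
    nlinarith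
  have h1 := hf A H U hN hlt htop hcov
  refine ⟨H.index, ?_, ?_, hrel ▸ h1⟩
  · rw [hidx', h6]
    nlinarith
  · rw [hidx', h6]
    nlinarith

/-- The exponent in the upper bound is of the correct order. -/
theorem sharp (D : ℕ) : ∃ d, D ≤ d ∧
    ∃ (A : Type) (_ : Group A) (_ : Finite A) (H U : Subgroup A), H.Normal ∧ U ≤ H ∧
      (∀ h ∈ H, ∃ a : A, a * h * a⁻¹ ∈ U) ∧ derivedSeries H d = ⊥ ∧ 2 ≤ H.index ∧
      H.index ^ (2 ^ d) ≤ U.relIndex H ^ 14 := by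
  obtain ⟨p, hNp, hp⟩ := Nat.exists_infinite_primes (2 ^ D + 7)
  obtain ⟨q, hq, hq1, hq2, A, hA, hA', H, U, hN, hUH, -, hder, hcov, hidx, hrel⟩ := lower_p p hp
  have hp7 : 7 ≤ p := (Nat.le_add_left _ _).trans hNp
  have hle := Nat.le_pow_clog (b := 2) (by norm_num) (p + 1)
  refine ⟨Nat.clog 2 (p + 1), ?_, A, hA, hA', H, U, hN, hUH, hcov, hder, ?_, ?_⟩
  · by_contra hcon
    push Not at hcon
    have h1 : 2 ^ Nat.clog 2 (p + 1) ≤ 2 ^ D := Nat.pow_le_pow_right (by norm_num) hcon.le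
    omega
  · rw [hidx]
    have hq3 := hq.two_le
    have : 2 * 1 ≤ q * (q - 1) := Nat.mul_le_mul hq3 (by omega)
    omega
  · have h2 : 2 ^ Nat.clog 2 (p + 1) ≤ 2 * p := by
      have h3 := Nat.pow_pred_clog_lt_self (b := 2) (by norm_num) (x := p + 1) (by omega)
      have h4 : 0 < Nat.clog 2 (p + 1) := Nat.clog_pos (by norm_num) (by omega)
      obtain ⟨c, hc⟩ : ∃ c, Nat.clog 2 (p + 1) = c + 1 := ⟨Nat.clog 2 (p + 1) - 1, by omega⟩
      rw [hc] at h3 ⊢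
      rw [pow_succ]
      simp only [Nat.pred_succ] at h3
      omega
    have h3 : H.index ≤ p ^ 7 := by
      obtain ⟨c, hc⟩ : ∃ c, c = p ^ 3 := ⟨_, rfl⟩
      have hc8 : 8 ≤ c := by
        rw [hc]
        calc 8 = 2 ^ 3 := by norm_num
          _ ≤ p ^ 3 := Nat.pow_le_pow_left (by omega) 3
      rw [← hc] at hq1 hq2
      obtain ⟨r, hr⟩ : ∃ r, q = r + 1 := ⟨q - 1, by omega⟩
      have e : p ^ 7 = p * (c * c) := by rw [hc]; ring
      rw [hidx, hr, Nat.add_sub_cancel, e]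
      have h5 : (r + 1) * r ≤ 7 * (c * c) := by nlinarith
      exact h5.trans (Nat.mul_le_mul_right _ hp7)
    calc H.index ^ 2 ^ Nat.clog 2 (p + 1) ≤ (p ^ 7) ^ 2 ^ Nat.clog 2 (p + 1) :=
          Nat.pow_le_pow_left h3 _
      _ ≤ (p ^ 7) ^ (2 * p) := Nat.pow_le_pow_right (pow_pos hp.pos 7) h2
      _ = U.relIndex H ^ 14 := by
        rw [hrel, ← pow_mul, ← pow_mul]
        congr 1
        ring

theorem growth' (f : ℕ → ℕ)
    (hf : ∀ (A : Type) [Group A] [Finite A] (H U : Subgroup A), H.Normal → U < H → H < ⊤ →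
      (∀ h ∈ H, ∃ a : A, a * h * a⁻¹ ∈ U) → (U.subgroupOf H).index ≤ f H.index)
    (N : ℕ) : ∃ n, N ≤ n ∧ (n : ℝ) ^ ((n : ℝ) ^ (1 / 6 : ℝ) / 10) ≤ f n := by
  obtain ⟨p, hNp, hp⟩ := Nat.exists_infinite_primes (N + 7)
  obtain ⟨n, h1, h2, h3⟩ := growth f hf p hp
  have hp7 : 7 ≤ p := by omega
  refine ⟨n, ?_, ?_⟩
  · have : p ≤ p ^ 6 := Nat.le_self_pow (by norm_num) p
    omega
  have hpR : (7 : ℝ) ≤ p := by exact_mod_cast hp7
  have h1R : (n : ℝ) ≤ 6 * (p : ℝ) ^ 6 := by exact_mod_cast h1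
  have ht : (n : ℝ) ^ (1 / 6 : ℝ) ≤ 10 / 7 * p := by
    have h4 : (n : ℝ) ≤ (10 / 7 * (p : ℝ)) ^ 6 := by
      rw [mul_pow]
      have h5 : (0 : ℝ) ≤ (p : ℝ) ^ 6 := by positivity
      refine h1R.trans (mul_le_mul_of_nonneg_right ?_ h5)
      norm_num
    have h5 := Real.rpow_le_rpow (Nat.cast_nonneg n) h4 (show (0 : ℝ) ≤ 1 / 6 by norm_num)
    have h6 : ((10 / 7 * (p : ℝ)) ^ 6) ^ (1 / 6 : ℝ) = 10 / 7 * p := by
      have h7 := Real.pow_rpow_inv_natCast (x := 10 / 7 * (p : ℝ)) (n := 6) (by positivity)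
        (by norm_num)
      have h8 : (((6 : ℕ) : ℝ))⁻¹ = 1 / 6 := by norm_num
      rw [h8] at h7
      exact h7
    rwa [h6] at h5
  have hn7 : (n : ℝ) ≤ (p : ℝ) ^ (7 : ℕ) := by
    refine h1R.trans ?_
    rw [pow_succ' (p : ℝ) 6]
    have h5 : (0 : ℝ) ≤ (p : ℝ) ^ 6 := by positivity
    nlinarith
  have h3R : (p : ℝ) ^ p ≤ f n := by exact_mod_cast h3
  refine le_trans ?_ h3R
  have ht0 : (0 : ℝ) ≤ (n : ℝ) ^ (1 / 6 : ℝ) / 10 := by positivity
  calc (n : ℝ) ^ ((n : ℝ) ^ (1 / 6 : ℝ) / 10)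
      ≤ ((p : ℝ) ^ (7 : ℕ)) ^ ((n : ℝ) ^ (1 / 6 : ℝ) / 10) :=
        Real.rpow_le_rpow (Nat.cast_nonneg n) hn7 ht0
    _ = (p : ℝ) ^ (7 * ((n : ℝ) ^ (1 / 6 : ℝ) / 10)) := by
        rw [← Real.rpow_natCast, ← Real.rpow_mul (by positivity)]
        norm_num
    _ ≤ (p : ℝ) ^ (p : ℝ) := by
        apply Real.rpow_le_rpow_of_exponent_le (by linarith)
        linarith
    _ = (p : ℝ) ^ p := Real.rpow_natCast _ _

end Pool.Agent.U247.CV
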