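import Mathlib

/-!
# Covering subgroups: examples
-/

set_option autoImplicit false

namespace Pool.Agent.U247.CV

open Subgroup

section wreath

variable (R T X : Type) [Group R] [Group T] [MulAction T X]

/-- The permutational wreath product. -/
abbrev Wr : Type := (X → R) ⋊[(mulAutArrow : T →* MulAut (X → R))] T

/-- the base group -/
def base : Subgroup (Wr R T X) := (⊤ : Subgroup (X → R)).map SemidirectProduct.inl

/-- the functions with equal values at `x` and `y` -/
def diag {X : Type} (x y : X) : Subgroup (X → R) where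
  carrier := {f | f x = f y}
  one_mem' := rfl
  mul_mem' := fun {a b} ha hb => by
    change a x * b x = a y * b y
    rw [show a x = a y from ha, show b x = b y from hb]
  inv_mem' := fun {a} ha => by
    change (a x)⁻¹ = (a y)⁻¹
    rw [show a x = a y from ha]

theorem base_eq : base R T X = (SemidirectProduct.rightHom (φ := (mulAutArrow : T →* MulAut (X → R)))).ker := by
  rw [base, ← MonoidHom.range_eq_map]
  exact SemidirectProduct.range_inl_eq_ker_rightHom

theorem base_normal : (base R T X).Normal := by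
  rw [base_eq]
  infer_instance

theorem base_index : (base R T X).index = Nat.card T := by
  rw [base_eq, index_ker, MonoidHom.range_eq_top.2 SemidirectProduct.rightHom_surjective]
  exact Nat.card_congr Subgroup.topEquiv.toEquiv

theorem diag_index {X : Type} {x y : X} (hxy : x ≠ y) : (diag R x y).index = Nat.card R := by
  classical
  let g : (X → R) ⧸ diag R x y → R := Quotient.lift (fun f => f x * (f y)⁻¹) (by
    intro f f' h
    have h1 : f⁻¹ * f' ∈ diag R x y := QuotientGroup.leftRel_apply.1 h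
    have h2 : (f x)⁻¹ * f' x = (f y)⁻¹ * f' y := h1
    have h3 : f' x = f x * ((f y)⁻¹ * f' y) := by rw [← h2]; group
    change f x * (f y)⁻¹ = f' x * (f' y)⁻¹
    rw [h3]
    group)
  have hg : Function.Bijective g := by
    constructor
    · intro a b
      induction a using QuotientGroup.induction_on with
      | H f =>
        induction b using QuotientGroup.induction_on with
        | H f' =>
          intro h
          have h1 : f x * (f y)⁻¹ = f' x * (f' y)⁻¹ := h
          rw [QuotientGroup.eq]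
          change (f x)⁻¹ * f' x = (f y)⁻¹ * f' y
          have h3 : f' x = f x * (f y)⁻¹ * f' y := by rw [h1]; group
          rw [h3]
          group
    · intro r
      refine ⟨((Pi.mulSingle x r : X → R) : (X → R) ⧸ diag R x y), ?_⟩
      change (Pi.mulSingle x r : X → R) x * ((Pi.mulSingle x r : X → R) y)⁻¹ = r
      rw [Pi.mulSingle_eq_same, Pi.mulSingle_eq_of_ne hxy.symm, inv_one, mul_one]
  exact Nat.card_congr (Equiv.ofBijective g hg)

/-- **Examples of covering subgroups.** -/
theorem example_wr [Finite R] [Finite X] {x y : X} (hxy : x ≠ y)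
    (htr : ∀ i j : X, i ≠ j → ∃ t : T, t • i = x ∧ t • j = y)
    (hc : Nat.card (ConjClasses R) < Nat.card X) :
    ∀ h ∈ base R T X, ∃ a : Wr R T X, a * h * a⁻¹ ∈ (diag R x y).map SemidirectProduct.inl := by
  classical
  have _ := Fintype.ofFinite X
  have _ := Fintype.ofFinite (ConjClasses R)
  rintro _ ⟨f, -, rfl⟩
  obtain ⟨i, j, hij, h⟩ : ∃ i j : X, i ≠ j ∧ ConjClasses.mk (f i) = ConjClasses.mk (f j) := by
    apply Fintype.exists_ne_map_eq_of_card_lt
    rwa [Nat.card_eq_fintype_card, Nat.card_eq_fintype_card] at hc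
  rw [ConjClasses.mk_eq_mk_iff_isConj, isConj_iff] at h
  obtain ⟨c, hcc⟩ := h
  obtain ⟨t, ht1, ht2⟩ := htr i j hij
  let e : X → R := Pi.mulSingle x c
  refine ⟨SemidirectProduct.inl e * SemidirectProduct.inr t, ?_⟩
  refine ⟨e * (mulAutArrow t f) * e⁻¹, ?_, ?_⟩
  · have hx : (mulAutArrow t f) x = f i := by
      change f (t⁻¹ • x) = f i
      rw [← ht1, inv_smul_smul]
    have hy : (mulAutArrow t f) y = f j := by
      change f (t⁻¹ • y) = f j
      rw [← ht2, inv_smul_smul]
    change e x * (mulAutArrow t f) x * (e x)⁻¹ = e y * (mulAutArrow t f) y * (e y)⁻¹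
    rw [hx, hy, show e x = c from Pi.mulSingle_eq_same _ _,
      show e y = 1 from Pi.mulSingle_eq_of_ne hxy.symm _, hcc]
    group
  · rw [map_mul, map_mul, map_inv, SemidirectProduct.inl_aut, mul_inv_rev, map_inv]
    group

end wreath

section affine

variable (p : ℕ) [hp : Fact p.Prime]

/-- the affine permutations of `ZMod p` -/
def aff : Subgroup (Equiv.Perm (ZMod p)) where
  carrier := {σ | ∃ (a : (ZMod p)ˣ) (b : ZMod p), ∀ x, σ x = a * x + b}
  one_mem' := ⟨1, 0, fun x => by simp⟩
  mul_mem' := by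
    rintro σ τ ⟨a, b, h⟩ ⟨a', b', h'⟩
    refine ⟨a * a', a * b' + b, fun x => ?_⟩
    rw [Equiv.Perm.mul_apply, h', h, Units.val_mul]
    ring
  inv_mem' := by
    rintro σ ⟨a, b, h⟩
    refine ⟨a⁻¹, -(a⁻¹ : (ZMod p)ˣ) * b, fun x => ?_⟩
    rw [Equiv.Perm.inv_eq_iff_eq, h]
    have h1 : (a : ZMod p) * ((a⁻¹ : (ZMod p)ˣ) : ZMod p) = 1 := a.mul_inv
    linear_combination (b - x) * h1

/-- an affine permutation -/
def affPerm (a : (ZMod p)ˣ) (b : ZMod p) : Equiv.Perm (ZMod p) where
  toFun x := a * x + b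
  invFun x := (a⁻¹ : (ZMod p)ˣ) * (x - b)
  left_inv x := by
    have h1 : ((a⁻¹ : (ZMod p)ˣ) : ZMod p) * (a : ZMod p) = 1 := a.inv_mul
    linear_combination x * h1
  right_inv x := by
    have h1 : (a : ZMod p) * ((a⁻¹ : (ZMod p)ˣ) : ZMod p) = 1 := a.mul_inv
    linear_combination (x - b) * h1

theorem aff_card : Nat.card (aff p) = p * (p - 1) := by
  let g : ZMod p × (ZMod p)ˣ → aff p := fun z => ⟨affPerm p z.2 z.1, z.2, z.1, fun _ => rfl⟩
  have hg : Function.Bijective g := by
    constructor
    · rintro ⟨b, a⟩ ⟨b', a'⟩ h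
      have h1 : affPerm p a b = affPerm p a' b' := congrArg Subtype.val h
      have h0 : (a : ZMod p) * 0 + b = a' * 0 + b' := Equiv.congr_fun h1 0
      have h2 : (a : ZMod p) * 1 + b = a' * 1 + b' := Equiv.congr_fun h1 1
      have hb : b = b' := by linear_combination h0
      have ha : (a : ZMod p) = a' := by linear_combination h2 - h0
      rw [Prod.mk.injEq]
      exact ⟨hb, Units.ext ha⟩
    · rintro ⟨σ, a, b, h⟩
      refine ⟨(b, a), ?_⟩
      apply Subtype.ext
      apply Equiv.ext
      intro x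
      exact (h x).symm
  rw [← Nat.card_congr (Equiv.ofBijective g hg), Nat.card_prod, Nat.card_zmod,
    Nat.card_eq_fintype_card, ZMod.card_units]

theorem aff_trans (i j : ZMod p) (hij : i ≠ j) : ∃ t : aff p, t • i = 0 ∧ t • j = 1 := by
  have h : j - i ≠ 0 := sub_ne_zero.2 hij.symm
  let u : (ZMod p)ˣ := (Units.mk0 (j - i) h)⁻¹
  have hu : (u : ZMod p) * (j - i) = 1 := (Units.mk0 (j - i) h).inv_mul
  refine ⟨⟨affPerm p u (-u * i), u, -u * i, fun _ => rfl⟩, ?_, ?_⟩
  · change (u : ZMod p) * i + -u * i = 0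
    ring
  · change (u : ZMod p) * j + -u * i = 1
    linear_combination hu

end affine

/-- For every finite group `R` with less than `p` conjugacy classes there is an example with
`|A : H| = p (p - 1)` and `|H : U| = |R|`. -/
theorem lower (R : Type) [Group R] [Finite R] (p : ℕ) [hp : Fact p.Prime]
    (hc : Nat.card (ConjClasses R) < p) :
    ∃ (A : Type) (_ : Group A) (_ : Finite A) (H U : Subgroup A), H.Normal ∧ U ≤ H ∧
      (∀ h ∈ H, ∃ a : A, a * h * a⁻¹ ∈ U) ∧ H.index = p * (p - 1) ∧
      U.relIndex H = Nat.card R := by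
  have hfin : Finite (Wr R (aff p) (ZMod p)) :=
    Finite.of_equiv ((ZMod p → R) × aff p) (SemidirectProduct.equivProd).symm
  have h01 : (0 : ZMod p) ≠ 1 := zero_ne_one
  refine ⟨Wr R (aff p) (ZMod p), inferInstance, hfin, base R (aff p) (ZMod p),
    (diag R (0 : ZMod p) 1).map SemidirectProduct.inl, base_normal _ _ _, map_mono le_top,
    example_wr R (aff p) (ZMod p) h01 (fun i j hij => aff_trans p i j hij) (by
      rwa [Nat.card_zmod]), ?_, ?_⟩
  · rw [base_index, aff_card]
  · rw [base, relIndex_map_map_of_injective _ _ SemidirectProduct.inl_injective,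
      relIndex_top_right, diag_index R h01]

theorem card_conj_perm (m : ℕ) : Nat.card (ConjClasses (Equiv.Perm (Fin m))) ≤ 2 ^ (m - 1) := by
  classical
  let g : ConjClasses (Equiv.Perm (Fin m)) → Nat.Partition (Fintype.card (Fin m)) :=
    Quotient.lift (fun σ => σ.partition) (fun σ τ h => Equiv.Perm.partition_eq_of_isConj.1 h)
  have hg : Function.Injective g := by
    intro a b
    obtain ⟨σ, rfl⟩ := ConjClasses.mk_surjective a
    obtain ⟨τ, rfl⟩ := ConjClasses.mk_surjective b
    intro h
    exact ConjClasses.mk_eq_mk_iff_isConj.2 (Equiv.Perm.partition_eq_of_isConj.2 h)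
  have h1 : Nat.card (ConjClasses (Equiv.Perm (Fin m))) ≤
      Nat.card (Nat.Partition (Fintype.card (Fin m))) := Nat.card_le_card_of_injective g hg
  rw [Fintype.card_fin] at h1
  have h2 : Nat.card (Nat.Partition m) ≤ Nat.card (Composition m) :=
    Nat.card_le_card_of_surjective _ Nat.Partition.ofComposition_surj
  rw [Nat.card_eq_fintype_card (α := Composition m), composition_card] at h2
  exact h1.trans h2

/-- Symmetric groups: for every `m` there is an example with `|A : H| = p (p - 1)`, `p` a prime at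
most `2 ^ m`, and `|H : U| = m!`. -/
theorem lower_perm (m : ℕ) (hm : 0 < m) :
    ∃ p : ℕ, p.Prime ∧ p ≤ 2 ^ m ∧
    ∃ (A : Type) (_ : Group A) (_ : Finite A) (H U : Subgroup A), H.Normal ∧ U ≤ H ∧
      (∀ h ∈ H, ∃ a : A, a * h * a⁻¹ ∈ U) ∧ H.index = p * (p - 1) ∧
      U.relIndex H = m.factorial := by
  obtain ⟨p, hp, h1, h2⟩ := Nat.exists_prime_lt_and_le_two_mul (2 ^ (m - 1)) (by positivity)
  have _ : Fact p.Prime := ⟨hp⟩
  obtain ⟨A, hA, hA', H, U, h⟩ := lower (Equiv.Perm (Fin m)) p ((card_conj_perm m).trans_lt h1)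
  refine ⟨p, hp, ?_, A, hA, hA', H, U, ?_⟩
  · refine h2.trans (le_of_eq ?_)
    rw [← pow_succ']
    congr 1
    omega
  · rwa [Nat.card_perm, Nat.card_fin] at h

/-- No function bounded by a polynomial can be taken in the question. -/
theorem not_polynomial (f : ℕ → ℕ)
    (hf : ∀ (A : Type) [Group A] [Finite A] (H U : Subgroup A), H.Normal → U < H → H < ⊤ →
      (∀ h ∈ H, ∃ a : A, a * h * a⁻¹ ∈ U) → (U.subgroupOf H).index ≤ f H.index) (C k : ℕ) :
    ∃ n, C * n ^ k < f n := by
  have hlim := FloorSemiring.tendsto_pow_div_factorial_atTop (K := ℝ) ((4 : ℝ) ^ k)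
  have hev := hlim.eventually (gt_mem_nhds (show (0 : ℝ) < 1 / (C + 1) by positivity))
  obtain ⟨m, hm2, hm⟩ := ((Filter.eventually_ge_atTop 2).and hev).exists
  obtain ⟨p, hp, hpm, A, hA, hA', H, U, hN, hUH, hcov, hidx, hrel⟩ := lower_perm m (by omega)
  refine ⟨p * (p - 1), ?_⟩
  have hp2 := hp.two_le
  have hfac : 2 ≤ m.factorial := by
    calc 2 = Nat.factorial 2 := rfl
      _ ≤ m.factorial := Nat.factorial_le hm2
  have hlt : U < H := by
    refine lt_of_le_of_ne hUH ?_
    rintro rfl
    rw [relIndex_self] at hrel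
    omega
  have htop : H < ⊤ := by
    refine lt_of_le_of_ne le_top ?_
    rintro rfl
    rw [index_top] at hidx
    have h3 : 2 * 1 ≤ p * (p - 1) := Nat.mul_le_mul hp2 (by omega)
    omega
  have h1 := hf A H U hN hlt htop hcov
  rw [hidx] at h1
  have h2 : m.factorial ≤ f (p * (p - 1)) := by
    rw [← hrel]
    exact h1
  refine lt_of_lt_of_le ?_ h2
  have hle : p * (p - 1) ≤ 4 ^ m := by
    calc p * (p - 1) ≤ 2 ^ m * 2 ^ m := Nat.mul_le_mul hpm ((Nat.sub_le _ _).trans hpm)
      _ = 4 ^ m := by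
        rw [← mul_pow]
        norm_num
  have hreal : (C : ℝ) * ((4 : ℝ) ^ k) ^ m < m.factorial := by
    rw [div_lt_div_iff₀ (by positivity) (by positivity), one_mul] at hm
    have h5 : (0 : ℝ) < ((4 : ℝ) ^ k) ^ m := by positivity
    nlinarith
  have hnat : C * (4 ^ m) ^ k < m.factorial := by
    have h6 : (C : ℝ) * ((4 : ℝ) ^ m) ^ k < m.factorial := by
      rw [← pow_mul, mul_comm m k, pow_mul]
      exact hreal
    exact_mod_cast h6
  exact lt_of_le_of_lt (Nat.mul_le_mul_left _ (Nat.pow_le_pow_left hle k)) hnat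

end Pool.Agent.U247.CV
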