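import Mathlib

/-!
# Quotients of the Nottingham group: few conjugacy classes
-/

set_option autoImplicit false

namespace Pool.Agent.U247.CV

open Polynomial

section nott

variable (p M : ℕ)

/-- truncated polynomials -/
abbrev TR : Type := (ZMod p)[X] ⧸ Ideal.span {(X : (ZMod p)[X]) ^ M}

/-- the class of `X` -/
noncomputable def xx : TR p M := Ideal.Quotient.mk _ X

/-- the ideal of `x ^ k` -/
noncomputable def JJ (k : ℕ) : Ideal (TR p M) := Ideal.span {xx p M ^ k}

variable {p M}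

theorem mem_JJ {k : ℕ} {s : TR p M} : s ∈ JJ p M k ↔ ∃ u, s = xx p M ^ k * u := by
  rw [JJ, Ideal.mem_span_singleton]
  rfl

theorem JJ_anti {k l : ℕ} (h : k ≤ l) : JJ p M l ≤ JJ p M k := by
  intro s hs
  obtain ⟨u, rfl⟩ := mem_JJ.1 hs
  rw [mem_JJ]
  exact ⟨xx p M ^ (l - k) * u, by rw [← mul_assoc, ← pow_add]; congr 2; omega⟩

theorem xx_pow : xx p M ^ M = 0 := by
  rw [xx, ← map_pow, Ideal.Quotient.eq_zero_iff_mem]
  exact Ideal.mem_span_singleton_self _

theorem JJ_M {s : TR p M} (h : s ∈ JJ p M M) : s = 0 := by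
  obtain ⟨u, rfl⟩ := mem_JJ.1 h
  rw [xx_pow, zero_mul]

theorem aeval_xx (P : (ZMod p)[X]) : aeval (xx p M) P = Ideal.Quotient.mk _ P := by
  have h : (aeval (xx p M) : (ZMod p)[X] →ₐ[ZMod p] TR p M) =
      Ideal.Quotient.mkₐ (ZMod p) (Ideal.span {(X : (ZMod p)[X]) ^ M}) := by
    apply Polynomial.algHom_ext
    rw [aeval_X]
    rfl
  exact DFunLike.congr_fun h P

theorem exists_aeval (s : TR p M) : ∃ P : (ZMod p)[X], aeval (xx p M) P = s := by
  obtain ⟨P, rfl⟩ := Ideal.Quotient.mk_surjective s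
  exact ⟨P, aeval_xx P⟩

theorem exists_lead (u : TR p M) : ∃ (c : ZMod p) (v : TR p M),
    u = algebraMap (ZMod p) (TR p M) c + xx p M * v := by
  obtain ⟨P, rfl⟩ := Ideal.Quotient.mk_surjective u
  refine ⟨P.coeff 0, Ideal.Quotient.mk _ P.divX, ?_⟩
  conv_lhs => rw [← Polynomial.divX_mul_X_add P]
  rw [map_add, map_mul, add_comm, mul_comm]
  rfl

theorem lead_unique {c : ZMod p} {l : ℕ} (hl : l < M)
    (h : algebraMap (ZMod p) (TR p M) c * xx p M ^ l ∈ JJ p M (l + 1)) : c = 0 := by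
  obtain ⟨u, hu⟩ := mem_JJ.1 h
  obtain ⟨P, rfl⟩ := Ideal.Quotient.mk_surjective u
  have h1 : Ideal.Quotient.mk (Ideal.span {(X : (ZMod p)[X]) ^ M}) (C c * X ^ l) =
      Ideal.Quotient.mk (Ideal.span {(X : (ZMod p)[X]) ^ M}) (X ^ (l + 1) * P) := by
    rw [map_mul, map_mul, map_pow, map_pow]
    exact hu
  rw [Ideal.Quotient.eq, Ideal.mem_span_singleton, X_pow_dvd_iff] at h1
  have h2 := h1 l hl
  rw [coeff_sub, coeff_C_mul_X_pow, if_pos rfl, coeff_X_pow_mul'] at h2
  rw [if_neg (by omega), sub_zero] at h2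
  exact h2

variable [hp : Fact p.Prime]

theorem card_JJ (j : ℕ) : j ≤ M → Finite (JJ p M (M - j)) ∧ Nat.card (JJ p M (M - j)) = p ^ j := by
  induction j with
  | zero =>
    intro _
    rw [Nat.sub_zero]
    have h : Subsingleton (JJ p M M) := ⟨fun a b => Subtype.ext (by rw [JJ_M a.2, JJ_M b.2])⟩
    have h' : Nonempty (JJ p M M) := ⟨0⟩
    refine ⟨inferInstance, ?_⟩
    rw [pow_zero]
    exact Nat.card_unique
  | succ j ih =>
    intro hj
    obtain ⟨h1, h2⟩ := ih (by omega)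
    obtain ⟨k, hk⟩ : ∃ k, k = M - (j + 1) := ⟨_, rfl⟩
    have hk1 : M - j = k + 1 := by omega
    rw [← hk]
    rw [hk1] at h1 h2
    let g : ZMod p × JJ p M (k + 1) → JJ p M k := fun z =>
      ⟨algebraMap (ZMod p) (TR p M) z.1 * xx p M ^ k + z.2, by
        refine Ideal.add_mem _ ?_ (JJ_anti (Nat.le_succ k) z.2.2)
        rw [mem_JJ]
        exact ⟨_, mul_comm _ _⟩⟩
    have hg : Function.Bijective g := by
      constructor
      · rintro ⟨c, s⟩ ⟨c', s'⟩ h
        have h3 : algebraMap (ZMod p) (TR p M) c * xx p M ^ k + (s : TR p M) =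
            algebraMap (ZMod p) (TR p M) c' * xx p M ^ k + (s' : TR p M) := congrArg Subtype.val h
        have h4 : algebraMap (ZMod p) (TR p M) (c - c') * xx p M ^ k ∈ JJ p M (k + 1) := by
          rw [map_sub]
          have h5 : (algebraMap (ZMod p) (TR p M) c - algebraMap (ZMod p) (TR p M) c') *
              xx p M ^ k = (s' : TR p M) - s := by linear_combination h3
          rw [h5]
          exact Ideal.sub_mem _ s'.2 s.2
        have h5 := sub_eq_zero.1 (lead_unique (by omega) h4)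
        subst h5
        have h6 : (s : TR p M) = s' := add_left_cancel h3
        rw [Prod.mk.injEq]
        exact ⟨rfl, Subtype.ext h6⟩
      · rintro ⟨s, hs⟩
        obtain ⟨u, rfl⟩ := mem_JJ.1 hs
        obtain ⟨c, v, hcv⟩ := exists_lead u
        refine ⟨(c, ⟨xx p M ^ (k + 1) * v, mem_JJ.2 ⟨v, rfl⟩⟩), ?_⟩
        apply Subtype.ext
        change algebraMap (ZMod p) (TR p M) c * xx p M ^ k + xx p M ^ (k + 1) * v =
          xx p M ^ k * u
        rw [hcv]
        ring
    have h3 : Finite (JJ p M k) := Finite.of_surjective g hg.2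
    refine ⟨h3, ?_⟩
    rw [← Nat.card_congr (Equiv.ofBijective g hg), Nat.card_prod, h2, Nat.card_zmod, pow_succ']

instance finite_TR : Finite (TR p M) := by
  have h := (card_JJ (p := p) M le_rfl).1
  rw [Nat.sub_self] at h
  have h1 : JJ p M 0 = ⊤ := by
    rw [JJ, pow_zero, Ideal.span_singleton_one]
  rw [h1] at h
  exact Finite.of_equiv _ (Submodule.topEquiv (R := TR p M) (M := TR p M)).toEquiv

theorem card_JJ' {k : ℕ} (hk : k ≤ M) : Nat.card (JJ p M k) = p ^ (M - k) := by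
  have h := (card_JJ (p := p) (M - k) (Nat.sub_le _ _)).2
  rwa [Nat.sub_sub_self hk] at h

/-- the action of a homomorphism -/
theorem act (φ : TR p M →ₐ[ZMod p] TR p M) (i : ℕ) (w : TR p M)
    (h : φ (xx p M) = xx p M + xx p M ^ (i + 2) * w) (k : ℕ) (u : TR p M) :
    φ (xx p M ^ k * u) - xx p M ^ k * u - k * (xx p M ^ (k + i + 1) * u * w) ∈
      JJ p M (k + i + 2) := by
  obtain ⟨P, rfl⟩ := exists_aeval u
  have h1 : φ (aeval (xx p M) P) = aeval (φ (xx p M)) P := (aeval_algHom_apply φ _ P).symm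
  have h2 : φ (xx p M) - xx p M ∣ aeval (φ (xx p M)) P - aeval (xx p M) P := by
    rw [aeval_def, aeval_def, eval₂_eq_eval_map, eval₂_eq_eval_map]
    exact Polynomial.sub_dvd_eval_sub _ _ _
  obtain ⟨v, hv⟩ := h2
  obtain ⟨κ, hκ⟩ := Polynomial.powAddExpansion (1 : TR p M) (xx p M ^ (i + 1) * w) k
  rw [one_pow, one_pow, mul_one] at hκ
  have h3 : φ (xx p M ^ k * aeval (xx p M) P) =
      xx p M ^ k * (1 + xx p M ^ (i + 1) * w) ^ k * φ (aeval (xx p M) P) := by
    rw [map_mul, map_pow, h, ← mul_pow]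
    congr 2
    ring
  have h4 : φ (aeval (xx p M) P) = aeval (xx p M) P + xx p M ^ (i + 2) * w * v := by
    rw [h1]
    have h5 : φ (xx p M) - xx p M = xx p M ^ (i + 2) * w := by rw [h]; ring
    rw [h5] at hv
    linear_combination hv
  rw [h3, h4, hκ, mem_JJ]
  refine ⟨w * v * (1 + k * (xx p M ^ (i + 1) * w) + κ * (xx p M ^ (i + 1) * w) ^ 2) +
    κ * xx p M ^ i * w ^ 2 * aeval (xx p M) P, ?_⟩
  ring

end nott

end Pool.Agent.U247.CV
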