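import Pool.Agent.U247.CV.Nott

/-!
# Quotients of the Nottingham group: the group and its commuting pairs
-/

set_option autoImplicit false

namespace Pool.Agent.U247.CV

open Polynomial

section nott

variable {p M : ℕ} [hp : Fact p.Prime]

theorem hom_JJ (φ : TR p M →ₐ[ZMod p] TR p M) (h : φ (xx p M) - xx p M ∈ JJ p M 2) {k : ℕ}
    {s : TR p M} (hs : s ∈ JJ p M k) : φ s - s ∈ JJ p M (k + 1) := by
  obtain ⟨w, hw⟩ := mem_JJ.1 h
  obtain ⟨u, rfl⟩ := mem_JJ.1 hs
  have h1 := act φ 0 w (by linear_combination hw) k u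
  have h2 : (k : TR p M) * (xx p M ^ (k + 0 + 1) * u * w) ∈ JJ p M (k + 1) := by
    rw [mem_JJ]
    exact ⟨k * u * w, by ring⟩
  have h3 := Ideal.add_mem _ (JJ_anti (by omega : k + 1 ≤ k + 0 + 2) h1) h2
  convert h3 using 1
  ring

theorem hom_mem (φ : TR p M →ₐ[ZMod p] TR p M) (h : φ (xx p M) - xx p M ∈ JJ p M 2) {k : ℕ}
    {s : TR p M} (hs : s ∈ JJ p M k) : φ s ∈ JJ p M k := by
  have h1 := Ideal.add_mem _ (JJ_anti (Nat.le_succ k) (hom_JJ φ h hs)) hs
  simpa using h1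

theorem hom_ext {σ τ : TR p M ≃ₐ[ZMod p] TR p M} (h : σ (xx p M) = τ (xx p M)) : σ = τ := by
  apply AlgEquiv.ext
  intro s
  obtain ⟨P, rfl⟩ := exists_aeval s
  rw [← aeval_algHom_apply σ, ← aeval_algHom_apply τ, h]

variable (p M)

instance finite_aut : Finite (TR p M ≃ₐ[ZMod p] TR p M) :=
  Finite.of_injective (fun σ => σ (xx p M)) fun _ _ h => hom_ext h

/-- the submonoid of the automorphisms which are trivial modulo `x ^ 2` -/
noncomputable def NM : Submonoid (TR p M ≃ₐ[ZMod p] TR p M) where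
  carrier := {σ | σ (xx p M) - xx p M ∈ JJ p M 2}
  one_mem' := by
    change xx p M - xx p M ∈ JJ p M 2
    rw [sub_self]
    exact Ideal.zero_mem _
  mul_mem' := by
    intro σ τ hσ hτ
    change σ (τ (xx p M)) - xx p M ∈ JJ p M 2
    have h1 : σ (τ (xx p M) - xx p M) ∈ JJ p M 2 := hom_mem (σ : TR p M →ₐ[ZMod p] TR p M) hσ hτ
    have h2 := Ideal.add_mem _ h1 hσ
    rw [map_sub] at h2
    convert h2 using 1
    ring

/-- the group of the automorphisms which are trivial modulo `x ^ 2` -/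
noncomputable def NG : Subgroup (TR p M ≃ₐ[ZMod p] TR p M) :=
  { NM p M with
    inv_mem' := by
      intro σ hσ
      have h1 : σ⁻¹ ∈ Subgroup.zpowers σ := Subgroup.inv_mem _ (Subgroup.mem_zpowers σ)
      rw [← mem_powers_iff_mem_zpowers] at h1
      exact (Submonoid.powers_le.2 hσ) h1 }

variable {p M}

theorem mem_NG {σ : TR p M ≃ₐ[ZMod p] TR p M} :
    σ ∈ NG p M ↔ σ (xx p M) - xx p M ∈ JJ p M 2 := Iff.rfl

theorem NG_mem {σ : TR p M ≃ₐ[ZMod p] TR p M} (h : σ ∈ NG p M) {k : ℕ} {s : TR p M}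
    (hs : s ∈ JJ p M k) : σ s ∈ JJ p M k := hom_mem (σ : TR p M →ₐ[ZMod p] TR p M) h hs

theorem exists_aut (f : TR p M) (hf : f ∈ JJ p M 2) (hM : 0 < M) :
    ∃ σ ∈ NG p M, σ (xx p M) = xx p M + f := by
  obtain ⟨w, rfl⟩ := mem_JJ.1 hf
  have h0 : (xx p M + xx p M ^ 2 * w) ^ M = 0 := by
    have : xx p M + xx p M ^ 2 * w = xx p M * (1 + xx p M * w) := by ring
    rw [this, mul_pow, xx_pow, zero_mul]
  let φ : TR p M →ₐ[ZMod p] TR p M :=
    Ideal.Quotient.liftₐ _ (aeval (xx p M + xx p M ^ 2 * w)) (by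
      intro a ha
      rw [Ideal.mem_span_singleton] at ha
      obtain ⟨b, rfl⟩ := ha
      rw [map_mul, map_pow, aeval_X, h0, zero_mul])
  have hφ : φ (xx p M) = xx p M + xx p M ^ 2 * w := by
    change aeval (xx p M + xx p M ^ 2 * w) X = _
    rw [aeval_X]
  have hφ2 : φ (xx p M) - xx p M ∈ JJ p M 2 := by
    rw [hφ, add_sub_cancel_left]
    exact hf
  have hinj : Function.Injective φ := by
    rw [injective_iff_map_eq_zero]
    intro s hs
    have h1 : ∀ k, k ≤ M → s ∈ JJ p M k := by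
      intro k
      induction k with
      | zero =>
        intro _
        rw [mem_JJ]
        exact ⟨s, by rw [pow_zero, one_mul]⟩
      | succ k ih =>
        intro hk
        have h2 := hom_JJ φ hφ2 (ih (by omega))
        rw [hs, zero_sub] at h2
        simpa using h2
    exact JJ_M (h1 M le_rfl)
  have hbij : Function.Bijective φ := Finite.injective_iff_bijective.1 hinj
  refine ⟨AlgEquiv.ofBijective φ hbij, ?_, hφ⟩
  exact hφ2

theorem card_NG (hM : 2 ≤ M) : Nat.card (NG p M) = p ^ (M - 2) := by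
  rw [← card_JJ' (p := p) hM]
  refine Nat.card_congr (Equiv.ofBijective
    (fun σ : NG p M => (⟨(σ : TR p M ≃ₐ[ZMod p] TR p M) (xx p M) - xx p M, σ.2⟩ : JJ p M 2)) ⟨?_, ?_⟩)
  · intro σ τ h
    have h1 : (σ : TR p M ≃ₐ[ZMod p] TR p M) (xx p M) - xx p M =
        (τ : TR p M ≃ₐ[ZMod p] TR p M) (xx p M) - xx p M := congrArg Subtype.val h
    exact Subtype.ext (hom_ext (sub_left_injective h1))
  · rintro ⟨f, hf⟩
    obtain ⟨σ, hσ, h⟩ := exists_aut f hf (by omega)
    refine ⟨⟨σ, hσ⟩, ?_⟩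
    apply Subtype.ext
    change σ (xx p M) - xx p M = f
    rw [h, add_sub_cancel_left]

/-- commuting automorphisms -/
theorem comm_lead {σ τ : TR p M ≃ₐ[ZMod p] TR p M} (h : σ * τ = τ * σ) {i j : ℕ}
    {a b : ZMod p} {u v : TR p M}
    (hσ : σ (xx p M) = xx p M + xx p M ^ (i + 2) * (algebraMap (ZMod p) (TR p M) a + xx p M * u))
    (hτ : τ (xx p M) = xx p M + xx p M ^ (j + 2) * (algebraMap (ZMod p) (TR p M) b + xx p M * v))
    (hij : i + j + 3 < M) : ((j : ZMod p) - i) * a * b = 0 := by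
  set A := algebraMap (ZMod p) (TR p M) a + xx p M * u with hA
  set B := algebraMap (ZMod p) (TR p M) b + xx p M * v with hB
  have h1 := act (σ : TR p M →ₐ[ZMod p] TR p M) i A hσ (j + 2) B
  have h2 := act (τ : TR p M →ₐ[ZMod p] TR p M) j B hτ (i + 2) A
  have h3 : σ (τ (xx p M)) = τ (σ (xx p M)) := DFunLike.congr_fun h (xx p M)
  rw [hτ, hσ, map_add, map_add, hσ, hτ] at h3
  change σ (xx p M ^ (j + 2) * B) - xx p M ^ (j + 2) * B - _ ∈ _ at h1
  change τ (xx p M ^ (i + 2) * A) - xx p M ^ (i + 2) * A - _ ∈ _ at h2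
  have h4 : j + 2 + i + 2 = i + 2 + j + 2 := by ring
  rw [h4] at h1
  have h5 := Ideal.sub_mem _ h2 h1
  apply lead_unique hij
  obtain ⟨c, hc⟩ := mem_JJ.1 h5
  rw [mem_JJ]
  refine ⟨c - (((j : TR p M) - i) * (algebraMap (ZMod p) (TR p M) a * v +
    algebraMap (ZMod p) (TR p M) b * u + xx p M * u * v)), ?_⟩
  have h6 : (((j + 2 : ℕ) : TR p M)) = (j : TR p M) + 2 := by push_cast; ring
  have h7 : (((i + 2 : ℕ) : TR p M)) = (i : TR p M) + 2 := by push_cast; ring
  rw [h6, h7] at hc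
  rw [map_mul, map_mul, map_sub, map_natCast, map_natCast]
  have e1 : xx p M ^ (i + 2 + j + 2) = xx p M ^ (i + j + 3) * xx p M := by ring
  have e2 : xx p M ^ (j + 2 + i + 1) = xx p M ^ (i + j + 3) := by ring
  have e3 : xx p M ^ (i + 2 + j + 1) = xx p M ^ (i + j + 3) := by ring
  rw [e1, e2, e3] at hc
  rw [hA, hB] at hc h3
  rw [pow_succ (xx p M) (i + j + 3)]
  linear_combination hc + h3
end nott

end Pool.Agent.U247.CV
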