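import Pool.Agent.U247.CV.Nott2

/-!
# Quotients of the Nottingham group: the number of conjugacy classes
-/

set_option autoImplicit false

namespace Pool.Agent.U247.CV

open Polynomial

section nott

variable {p M : ℕ} [hp : Fact p.Prime]

/-- the displacement of `x` -/
noncomputable def dd (τ : NG p M) : TR p M := (τ : TR p M ≃ₐ[ZMod p] TR p M) (xx p M) - xx p M

theorem dd_inj {σ τ : NG p M} (h : dd σ = dd τ) : σ = τ :=
  Subtype.ext (hom_ext (sub_left_injective h))

theorem dd_mem (τ : NG p M) : dd τ ∈ JJ p M 2 := τ.2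

theorem dd_one : dd (1 : NG p M) = 0 := by
  change xx p M - xx p M = 0
  rw [sub_self]

theorem mem_step {j : ℕ} {f : TR p M} (hf : f ∈ JJ p M j) : ∃ (c : ZMod p) (v : TR p M),
    f = xx p M ^ j * (algebraMap (ZMod p) (TR p M) c + xx p M * v) := by
  obtain ⟨w, rfl⟩ := mem_JJ.1 hf
  obtain ⟨c, v, rfl⟩ := exists_lead w
  exact ⟨c, v, rfl⟩

theorem exists_depth {f : TR p M} (hf : f ∈ JJ p M 2) (h0 : f ≠ 0) (hM : 2 ≤ M) :
    ∃ (i : ℕ) (a : ZMod p) (u : TR p M), i + 2 < M ∧ a ≠ 0 ∧
      f = xx p M ^ (i + 2) * (algebraMap (ZMod p) (TR p M) a + xx p M * u) := by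
  by_contra hcon
  push Not at hcon
  have h1 : ∀ i, i + 2 ≤ M → f ∈ JJ p M (i + 2) := by
    intro i
    induction i with
    | zero => exact fun _ => hf
    | succ i ih =>
      intro hi
      obtain ⟨c, v, hcv⟩ := mem_step (ih (by omega))
      have hc : c = 0 := by
        by_contra hc
        exact hcon i c v (by omega) hc hcv
      rw [mem_JJ]
      refine ⟨v, ?_⟩
      rw [hcv, hc, map_zero]
      ring
  have h2 := h1 (M - 2) (by omega)
  rw [Nat.sub_add_cancel hM] at h2
  exact h0 (JJ_M h2)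

theorem step {σ τ : NG p M} (hc : Commute σ τ) {i j : ℕ} {a : ZMod p} {u : TR p M} (ha : a ≠ 0)
    (hσ : dd σ = xx p M ^ (i + 2) * (algebraMap (ZMod p) (TR p M) a + xx p M * u))
    (hM : M ≤ p + 2) (hij : i + j + 3 < M) (hne : j ≠ i) (hτ : dd τ ∈ JJ p M (j + 2)) :
    dd τ ∈ JJ p M (j + 3) := by
  obtain ⟨b, v, hb⟩ := mem_step hτ
  have h1 := comm_lead (σ := (σ : TR p M ≃ₐ[ZMod p] TR p M)) (τ := (τ : TR p M ≃ₐ[ZMod p] TR p M))
    (congrArg Subtype.val hc.eq) (i := i) (j := j) (a := a) (b := b) (u := u) (v := v)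
    (by rw [← hσ, dd]; ring) (by rw [← hb, dd]; ring) hij
  have h2 : (j : ZMod p) - i ≠ 0 := by
    intro h
    have h3 : (j : ZMod p) = i := sub_eq_zero.1 h
    rw [ZMod.natCast_eq_natCast_iff'] at h3
    rw [Nat.mod_eq_of_lt (by omega), Nat.mod_eq_of_lt (by omega)] at h3
    exact hne h3
  have h3 : b = 0 := by
    rcases mul_eq_zero.1 h1 with h | h
    · rcases mul_eq_zero.1 h with h | h
      · exact absurd h h2
      · exact absurd h ha
    · exact h
  rw [mem_JJ]
  refine ⟨v, ?_⟩
  rw [hb, h3, map_zero]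
  ring

theorem far {σ τ : NG p M} (hc : Commute σ τ) {i : ℕ} {a : ZMod p} {u : TR p M} (ha : a ≠ 0)
    (hσ : dd σ = xx p M ^ (i + 2) * (algebraMap (ZMod p) (TR p M) a + xx p M * u))
    (hM : M ≤ p + 2) (h : M ≤ i + 3 + i ∨ dd τ ∈ JJ p M (i + 3)) :
    ∀ j, i + j + 3 ≤ M → dd τ ∈ JJ p M (j + 2) := by
  intro j
  induction j with
  | zero => exact fun _ => dd_mem τ
  | succ j ih =>
    intro hj
    have h1 := ih (by omega)
    by_cases hji : j = i
    · subst hji
      rcases h with h | h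
      · omega
      · exact h
    · exact step hc ha hσ hM (by omega) hji h1

theorem near {σ τ : NG p M} (hc : Commute σ τ) {i : ℕ} {a : ZMod p} {u : TR p M} (ha : a ≠ 0)
    (hσ : dd σ = xx p M ^ (i + 2) * (algebraMap (ZMod p) (TR p M) a + xx p M * u))
    (hM : M ≤ p + 2) (hi : i + 3 + i < M) : dd τ ∈ JJ p M (i + 2) := by
  have h1 : ∀ j, j ≤ i → dd τ ∈ JJ p M (j + 2) := by
    intro j
    induction j with
    | zero => exact fun _ => dd_mem τ
    | succ j ih =>
      intro hj
      exact step hc ha hσ hM (by omega) (by omega) (ih (by omega))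
  exact h1 i le_rfl

theorem cent_card {σ : NG p M} {i : ℕ} {a : ZMod p} {u : TR p M} (ha : a ≠ 0)
    (hσ : dd σ = xx p M ^ (i + 2) * (algebraMap (ZMod p) (TR p M) a + xx p M * u))
    (hM : M ≤ p + 2) (hi : i + 2 < M) : Nat.card {τ : NG p M // Commute σ τ} ≤ p ^ (i + 2) := by
  classical
  obtain ⟨L, hL⟩ : ∃ L, L + i + 3 = M := ⟨M - 3 - i, by omega⟩
  have hJ : Nat.card (JJ p M (L + 2)) = p ^ (i + 1) := by
    rw [card_JJ' (by omega)]
    congr 1
    omega
  have hfin : Finite (JJ p M (L + 2)) := inferInstance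
  by_cases hcase : M ≤ i + 3 + i
  · have h1 : Nat.card {τ : NG p M // Commute σ τ} ≤ Nat.card (JJ p M (L + 2)) := by
      refine Nat.card_le_card_of_injective (fun τ => (⟨dd τ.1,
        far τ.2 ha hσ hM (Or.inl hcase) L (by omega)⟩ : JJ p M (L + 2))) ?_
      intro τ τ' h
      exact Subtype.ext (dd_inj (congrArg Subtype.val h))
    rw [hJ] at h1
    exact h1.trans (Nat.pow_le_pow_right hp.out.pos (by omega))
  · push Not at hcase
    have hnear : ∀ τ : {τ : NG p M // Commute σ τ}, ∃ c : ZMod p, ∃ v : TR p M,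
        dd τ.1 = xx p M ^ (i + 2) * (algebraMap (ZMod p) (TR p M) c + xx p M * v) :=
      fun τ => mem_step (near τ.2 ha hσ hM hcase)
    choose lead v hlead using hnear
    let rep : ZMod p → {τ : NG p M // Commute σ τ} := fun c =>
      if h : ∃ τ, lead τ = c then h.choose else ⟨1, Commute.one_right σ⟩
    have hrep : ∀ τ, lead (rep (lead τ)) = lead τ := by
      intro τ
      have h : ∃ τ', lead τ' = lead τ := ⟨τ, rfl⟩
      simp only [rep, dif_pos h]
      exact h.choose_spec
    have hdd : ∀ τ : {τ : NG p M // Commute σ τ},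
        dd ((rep (lead τ)).1⁻¹ * τ.1) ∈ JJ p M (L + 2) := by
      intro τ
      refine far ((rep (lead τ)).2.inv_right.mul_right τ.2) ha hσ hM (Or.inr ?_) L (by omega)
      have e : dd ((rep (lead τ)).1⁻¹ * τ.1) =
          ((rep (lead τ)).1⁻¹ : NG p M).1 (dd τ.1 - dd (rep (lead τ)).1) := by
        have e1 : ((rep (lead τ)).1⁻¹ : NG p M).1 ((rep (lead τ)).1.1 (xx p M)) = xx p M := by
          have := DFunLike.congr_fun (congrArg Subtype.val (inv_mul_cancel (rep (lead τ)).1))
            (xx p M)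
          exact this
        rw [dd, dd, dd]
        rw [show (τ.1.1 (xx p M) - xx p M - ((rep (lead τ)).1.1 (xx p M) - xx p M)) =
          τ.1.1 (xx p M) - (rep (lead τ)).1.1 (xx p M) by ring, map_sub, e1]
        rfl
      rw [e]
      apply NG_mem ((rep (lead τ)).1⁻¹ : NG p M).2
      rw [hlead τ, hlead (rep (lead τ)), hrep, mem_JJ]
      exact ⟨v τ - v (rep (lead τ)), by ring⟩
    have h1 : Nat.card {τ : NG p M // Commute σ τ} ≤ Nat.card (ZMod p × JJ p M (L + 2)) := by
      refine Nat.card_le_card_of_injective (fun τ => (lead τ,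
        (⟨dd ((rep (lead τ)).1⁻¹ * τ.1), hdd τ⟩ : JJ p M (L + 2)))) ?_
      intro τ τ' h
      rw [Prod.mk.injEq] at h
      obtain ⟨h2, h3⟩ := h
      have h4 := dd_inj (congrArg Subtype.val h3)
      rw [h2] at h4
      exact Subtype.ext (mul_left_cancel h4)
    rw [Nat.card_prod, Nat.card_zmod, hJ] at h1
    rwa [pow_succ' p (i + 1)]

theorem classes (hM2 : 2 ≤ M) (hM : M ≤ p + 2) :
    Nat.card (ConjClasses (NG p M)) ≤ 1 + (M - 2) * p ^ 2 := by
  classical
  have _ := Fintype.ofFinite (NG p M)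
  have hG := card_NG (p := p) hM2
  have hpos : 0 < p ^ (M - 2) := pow_pos hp.out.pos _
  have h1 := card_comm_eq_card_conjClasses_mul_card (NG p M)
  have e : {q : NG p M × NG p M // Commute q.1 q.2} ≃ Σ σ : NG p M, {τ : NG p M // Commute σ τ} :=
    { toFun := fun q => ⟨q.1.1, q.1.2, q.2⟩
      invFun := fun q => ⟨(q.1, q.2.1), q.2.2⟩
      left_inv := fun _ => rfl
      right_inv := fun _ => rfl }
  rw [Nat.card_congr e, Nat.card_sigma] at h1
  have hterm : ∀ σ : NG p M, Nat.card {τ : NG p M // Commute σ τ} ≤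
      (if σ = 1 then p ^ (M - 2) else 0) +
        ∑ i ∈ Finset.range (M - 2), if dd σ ∈ JJ p M (i + 2) then p ^ (i + 2) else 0 := by
    intro σ
    by_cases hσ : σ = 1
    · rw [if_pos hσ]
      refine le_trans ?_ (Nat.le_add_right _ _)
      rw [← hG]
      exact Nat.card_le_card_of_injective _ Subtype.val_injective
    · rw [if_neg hσ, zero_add]
      have h0 : dd σ ≠ 0 := fun h => hσ (dd_inj (h.trans dd_one.symm))
      obtain ⟨i, a, u, hi, ha, hs⟩ := exists_depth (dd_mem σ) h0 hM2
      refine (cent_card ha hs hM hi).trans ?_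
      have hmem : dd σ ∈ JJ p M (i + 2) := by
        rw [hs, mem_JJ]
        exact ⟨_, rfl⟩
      have h2 := Finset.single_le_sum
        (f := fun i => if dd σ ∈ JJ p M (i + 2) then p ^ (i + 2) else 0)
        (fun j _ => Nat.zero_le _) (Finset.mem_range.2 (show i < M - 2 by omega))
      simp only [if_pos hmem] at h2
      exact h2
  have hsum : ∑ σ : NG p M, Nat.card {τ : NG p M // Commute σ τ} ≤
      p ^ (M - 2) + (M - 2) * p ^ M := by
    refine (Finset.sum_le_sum fun σ _ => hterm σ).trans ?_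
    rw [Finset.sum_add_distrib, Finset.sum_ite_eq' Finset.univ (1 : NG p M),
      if_pos (Finset.mem_univ _), Finset.sum_comm]
    refine Nat.add_le_add_left ?_ _
    have h3 : ∀ i ∈ Finset.range (M - 2),
        (∑ σ : NG p M, if dd σ ∈ JJ p M (i + 2) then p ^ (i + 2) else 0) ≤ p ^ M := by
      intro i hi
      rw [Finset.mem_range] at hi
      rw [← Finset.sum_filter, Finset.sum_const, smul_eq_mul]
      have h4 : (Finset.univ.filter fun σ : NG p M => dd σ ∈ JJ p M (i + 2)).card ≤
          p ^ (M - (i + 2)) := by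
        rw [← card_JJ' (p := p) (show i + 2 ≤ M by omega), ← Fintype.card_subtype,
          ← Nat.card_eq_fintype_card]
        refine Nat.card_le_card_of_injective
          (fun σ => (⟨dd σ.1, σ.2⟩ : JJ p M (i + 2))) ?_
        intro σ τ h
        exact Subtype.ext (dd_inj (congrArg Subtype.val h))
      calc _ ≤ p ^ (M - (i + 2)) * p ^ (i + 2) := Nat.mul_le_mul_right _ h4
        _ = p ^ M := by
          rw [← pow_add]
          congr 1
          omega
    refine (Finset.sum_le_sum h3).trans ?_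
    rw [Finset.sum_const, Finset.card_range, smul_eq_mul]
  rw [h1, hG] at hsum
  have h5 : p ^ M = p ^ 2 * p ^ (M - 2) := by
    rw [← pow_add]
    congr 1
    omega
  rw [h5] at hsum
  have h6 : Nat.card (ConjClasses (NG p M)) * p ^ (M - 2) ≤
      (1 + (M - 2) * p ^ 2) * p ^ (M - 2) := by
    refine hsum.trans (le_of_eq ?_)
    ring
  exact Nat.le_of_mul_le_mul_right h6 hpos

end nott

end Pool.Agent.U247.CV
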