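import Mathlib

/-!
# Covering subgroups: upper bound for solvable normal subgroups
-/

set_option autoImplicit false

namespace Pool.Agent.U247.CV

open Subgroup
open scoped commutatorElement

theorem card_rel {A : Type} [Group A] {U K : Subgroup A} (h : U ≤ K) :
    Nat.card U * U.relIndex K = Nat.card K := by
  have h1 := relIndex_mul_relIndex ⊥ U K bot_le h
  rwa [relIndex_bot_left, relIndex_bot_left] at h1

/-- Second isomorphism theorem for indices: `V` normal. -/
theorem relIndex_sup' {A : Type} [Group A] [Finite A] (U V : Subgroup A) [V.Normal] :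
    U.relIndex (U ⊔ V) = U.relIndex V := by
  have h1 : V.relIndex (U ⊔ V) = V.relIndex U := relIndex_sup_right U V
  have e1 : Nat.card V * V.relIndex (U ⊔ V) = Nat.card ↥(U ⊔ V) := card_rel le_sup_right
  have e2 : Nat.card U * U.relIndex (U ⊔ V) = Nat.card ↥(U ⊔ V) := card_rel le_sup_left
  have e3 : Nat.card ↥(U ⊓ V) * (U ⊓ V).relIndex U = Nat.card U := card_rel inf_le_left
  have e4 : Nat.card ↥(U ⊓ V) * (U ⊓ V).relIndex V = Nat.card V := card_rel inf_le_right
  rw [inf_relIndex_left] at e3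
  rw [inf_relIndex_right] at e4
  rw [h1] at e1
  have hc : 0 < Nat.card ↥(U ⊓ V) := Nat.card_pos
  have hU : 0 < Nat.card U := Nat.card_pos
  have hy : 0 < V.relIndex U := by
    rcases Nat.eq_zero_or_pos (V.relIndex U) with h | h
    · rw [h, mul_zero] at e3
      omega
    · exact h
  have key : (Nat.card ↥(U ⊓ V) * V.relIndex U) * U.relIndex (U ⊔ V) =
      (Nat.card ↥(U ⊓ V) * V.relIndex U) * U.relIndex V := by
    rw [e3, e2, ← e1, ← e4, ← e3]
    ring
  exact Nat.eq_of_mul_eq_mul_left (Nat.mul_pos hc hy) key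

/-- An abelian normal subgroup `V` contained in the union of the conjugates of `U`. -/
theorem abelian_step {A : Type} [Group A] [Finite A] (U V : Subgroup A) [V.Normal]
    (hab : ∀ x ∈ V, ∀ y ∈ V, x * y = y * x) (hcov : ∀ v ∈ V, ∃ a : A, a * v * a⁻¹ ∈ U) :
    U.relIndex V ≤ (U ⊔ V).index := by
  classical
  set W : Subgroup A := U ⊓ V with hW
  set K : Subgroup A := U ⊔ V with hK
  have hnorm : ∀ k ∈ K, ∀ w ∈ W, k * w * k⁻¹ ∈ W := by
    intro k hk w hw
    obtain ⟨u, hu, v, hv, rfl⟩ := (mem_sup_of_normal_right (s := U) (t := V)).1 hk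
    have e : u * v * w * (u * v)⁻¹ = u * w * u⁻¹ := by
      have e1 : v * w = w * v := hab v hv w hw.2
      calc u * v * w * (u * v)⁻¹ = u * (v * w) * (u * v)⁻¹ := by group
        _ = u * (w * v) * (u * v)⁻¹ := by rw [e1]
        _ = u * w * u⁻¹ := by group
    rw [e]
    exact ⟨U.mul_mem (U.mul_mem hu hw.1) (U.inv_mem hu), Normal.conj_mem inferInstance _ hw.2 _⟩
  have hle : Nat.card V ≤ Nat.card ((A ⧸ K) × W) := by
    let g : (A ⧸ K) × W → A := fun z => z.1.out * z.2 * (z.1.out)⁻¹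
    have hg : ∀ z, g z ∈ V := fun z => Normal.conj_mem inferInstance _ z.2.2.2 _
    refine Nat.card_le_card_of_surjective (fun z => (⟨g z, hg z⟩ : V)) ?_
    rintro ⟨v, hv⟩
    obtain ⟨a, ha⟩ := hcov v hv
    have hw : a * v * a⁻¹ ∈ W := ⟨ha, Normal.conj_mem inferInstance _ hv _⟩
    set c : A := ((a⁻¹ : A) : A ⧸ K).out with hc
    have hk : c⁻¹ * a⁻¹ ∈ K := by
      rw [← QuotientGroup.eq]
      exact QuotientGroup.out_eq' _
    refine ⟨(((a⁻¹ : A) : A ⧸ K), ⟨(c⁻¹ * a⁻¹) * (a * v * a⁻¹) * (c⁻¹ * a⁻¹)⁻¹,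
      hnorm _ hk _ hw⟩), ?_⟩
    apply Subtype.ext
    change c * ((c⁻¹ * a⁻¹) * (a * v * a⁻¹) * (c⁻¹ * a⁻¹)⁻¹) * c⁻¹ = v
    group
  rw [Nat.card_prod] at hle
  have e4 : Nat.card W * W.relIndex V = Nat.card V := card_rel inf_le_right
  rw [hW, inf_relIndex_right, ← hW] at e4
  have hc : 0 < Nat.card W := Nat.card_pos
  have h5 : Nat.card W * U.relIndex V ≤ Nat.card W * K.index := by
    rw [e4, mul_comm]
    exact hle
  exact Nat.le_of_mul_le_mul_left h5 hc

theorem upper (d : ℕ) : ∀ (A : Type) [Group A] [Finite A] (H U : Subgroup A), H.Normal → U ≤ H →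
    (∀ h ∈ H, ∃ a : A, a * h * a⁻¹ ∈ U) → derivedSeries H d = ⊥ →
    U.relIndex H ≤ H.index ^ (2 ^ d - 1) := by
  induction d with
  | zero =>
    intro A _ _ H U _ hU _ hd
    rw [derivedSeries_zero] at hd
    have h1 : H = ⊥ := by
      rw [eq_bot_iff]
      intro x hx
      have : (⟨x, hx⟩ : H) ∈ (⊥ : Subgroup H) := hd ▸ mem_top _
      rw [mem_bot] at this ⊢
      exact congrArg Subtype.val this
    subst h1
    simp
  | succ d ih =>
    intro A _ _ H U hH hU hcov hd
    set V : Subgroup A := (derivedSeries H d).map H.subtype with hV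
    have : V.Normal := by
      rw [hV]
      infer_instance
    have hVH : V ≤ H := by
      rw [hV]
      rintro _ ⟨x, -, rfl⟩
      exact x.2
    have hab : ∀ x ∈ V, ∀ y ∈ V, x * y = y * x := by
      rintro _ ⟨x, hx, rfl⟩ _ ⟨y, hy, rfl⟩
      have h1 : ⁅x, y⁆ ∈ derivedSeries H (d + 1) := by
        rw [derivedSeries_succ]
        exact commutator_mem_commutator hx hy
      rw [hd, mem_bot, commutatorElement_eq_one_iff_mul_comm] at h1
      exact congrArg Subtype.val h1
    set q : A →* A ⧸ V := QuotientGroup.mk' V with hq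
    have hker : q.ker = V := QuotientGroup.ker_mk' V
    have hsurj : Function.Surjective q := QuotientGroup.mk'_surjective V
    have hidx : (H.map q).index = H.index := index_map_eq H hsurj (by rw [hker]; exact hVH)
    have h1 := ih (A ⧸ V) (H.map q) (U.map q) (hH.map q hsurj) (map_mono hU) (by
      rintro _ ⟨h, hh, rfl⟩
      obtain ⟨a, ha⟩ := hcov h hh
      refine ⟨q a, ⟨a * h * a⁻¹, ha, ?_⟩⟩
      rw [map_mul, map_mul, map_inv]) (by
      have h2 := map_derivedSeries_eq (MonoidHom.subgroupMap_surjective q H) d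
      rw [← h2, eq_bot_iff]
      rintro _ ⟨x, hx, rfl⟩
      rw [mem_bot]
      apply Subtype.ext
      change q x = 1
      rw [← MonoidHom.mem_ker, hker]
      exact ⟨x, hx, rfl⟩)
    rw [hidx, ← relIndex_comap, comap_map_eq, hker] at h1
    have h2 : U.relIndex H = U.relIndex (U ⊔ V) * (U ⊔ V).relIndex H :=
      (relIndex_mul_relIndex U (U ⊔ V) H le_sup_left (sup_le hU hVH)).symm
    have h3 : U.relIndex V ≤ (U ⊔ V).index :=
      abelian_step U V hab (fun v hv => hcov v (hVH hv))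
    have h4 : (U ⊔ V).index = (U ⊔ V).relIndex H * H.index :=
      (relIndex_mul_index (sup_le hU hVH)).symm
    set n := H.index
    set e := (U ⊔ V).relIndex H
    rw [h2, relIndex_sup']
    have h5 : 2 ^ (d + 1) - 1 = (2 ^ d - 1) + (2 ^ d - 1) + 1 := by
      have : 0 < 2 ^ d := by positivity
      rw [pow_succ]
      omega
    calc U.relIndex V * e ≤ (e * n) * e := Nat.mul_le_mul_right _ (h4 ▸ h3)
      _ ≤ (n ^ (2 ^ d - 1) * n) * n ^ (2 ^ d - 1) :=
        Nat.mul_le_mul (Nat.mul_le_mul_right _ h1) h1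
      _ = n ^ (2 ^ (d + 1) - 1) := by
        rw [h5, pow_succ, pow_add]
        ring

end Pool.Agent.U247.CV
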